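import Pool.Agent.Helper70.EH.Goals

/-!
# EH-CK: equal factors
-/

namespace Pool.Agent.Helper96.EH.CK

open Pool.Agent.Helper70.EQ Pool.Agent.Helper70.EH

theorem card_pos (r M : ℕ) (hr : 1 ≤ r) (hM : r ≤ M) :
    ((Finset.piAntidiag Finset.univ M).filter (fun m : Fin r → ℕ => ∀ i, 1 ≤ m i)).card =
      (M - 1).choose (r - 1) := by
  have h1 : ((Finset.piAntidiag Finset.univ M).filter (fun m : Fin r → ℕ => ∀ i, 1 ≤ m i)).card =
      ((Finset.univ : Finset (Fin r)).finsuppAntidiag (M - r)).card := by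
    refine Finset.card_nbij' (fun m => Finsupp.equivFunOnFinite.symm (fun i => m i - 1))
      (fun f i => f i + 1) ?_ ?_ ?_ ?_
    · intro m hm
      have hm' := Finset.mem_filter.1 hm
      have h2 : ∑ i : Fin r, m i = M := (Finset.mem_piAntidiag.1 hm'.1).1
      refine Finset.mem_coe.2 (Finset.mem_finsuppAntidiag.2 ⟨?_, fun i _ => Finset.mem_univ i⟩)
      have h3 : ∑ i : Fin r, ((m i - 1) + 1) = ∑ i : Fin r, m i :=
        Finset.sum_congr rfl fun i _ => Nat.sub_add_cancel (hm'.2 i)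
      rw [Finset.sum_add_distrib] at h3
      simp only [Finset.sum_const, Finset.card_univ, Fintype.card_fin, smul_eq_mul, mul_one] at h3
      have h4 : ∑ i : Fin r, (Finsupp.equivFunOnFinite.symm (fun i => m i - 1)) i =
          ∑ i : Fin r, (m i - 1) := Finset.sum_congr rfl fun i _ => rfl
      rw [h4]
      omega
    · intro f hf
      have h2 := (Finset.mem_finsuppAntidiag.1 (Finset.mem_coe.1 hf)).1
      refine Finset.mem_coe.2 (Finset.mem_filter.2 ⟨Finset.mem_piAntidiag.2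
        ⟨?_, fun i _ => Finset.mem_univ i⟩, fun i => Nat.le_add_left 1 _⟩)
      rw [Finset.sum_add_distrib, h2]
      simp only [Finset.sum_const, Finset.card_univ, Fintype.card_fin, smul_eq_mul, mul_one]
      omega
    · intro m hm
      have hm' := Finset.mem_filter.1 hm
      funext i
      exact Nat.sub_add_cancel (hm'.2 i)
    · intro f _
      ext i
      simp
  rw [h1, Finset.card_finsuppAntidiag_nat_eq_choose, Finset.card_univ, Fintype.card_fin]
  have h2 : r + (M - r) - 1 = M - 1 := by omega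
  rw [h2]
  have h3 : M - 1 = (M - r) + (r - 1) := by omega
  rw [h3, Nat.choose_symm_add]

theorem ak_eq (r κ : ℕ) (k : Fin r → ℕ) (hk : ∀ i, k i = κ) (M : ℕ) (hM : 1 ≤ M) :
    ak k M = (κ : ℝ) ^ M * sj r M := by
  unfold ak sj
  have h0 : ∑ J ∈ Finset.univ.filter (fun J : Finset (Fin r) => J.Nonempty),
      (-1 : ℝ) ^ (r - J.card) * (∑ i ∈ J, (k i : ℝ)) ^ M =
      ∑ J ∈ (Finset.univ : Finset (Fin r)).powerset,
        (-1 : ℝ) ^ (r - J.card) * ((J.card : ℝ) * κ) ^ M := by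
    rw [Finset.powerset_univ, Finset.sum_filter]
    refine Finset.sum_congr rfl fun J _ => ?_
    split_ifs with h
    · simp only [hk, Finset.sum_const, nsmul_eq_mul]
    · rw [Finset.not_nonempty_iff_eq_empty.1 h]
      simp [zero_pow (show M ≠ 0 by omega)]
  rw [h0, Finset.sum_powerset_apply_card
    (fun j => (-1 : ℝ) ^ (r - j) * ((j : ℝ) * κ) ^ M), Finset.mul_sum, Finset.card_univ,
    Fintype.card_fin]
  refine Finset.sum_congr rfl fun j _ => ?_
  rw [nsmul_eq_mul, mul_pow]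
  ring

theorem bk_eq (r κ : ℕ) (k : Fin r → ℕ) (hk : ∀ i, k i = κ) (M : ℕ) (hM : 1 ≤ M) :
    bk k M = (κ : ℝ) ^ M * tj r M := by
  unfold bk tj
  have h0 : ∑ J ∈ Finset.univ.filter (fun J : Finset (Fin r) => J.Nonempty),
      (∑ i ∈ J, (k i : ℝ)) ^ M =
      ∑ J ∈ (Finset.univ : Finset (Fin r)).powerset, ((J.card : ℝ) * κ) ^ M := by
    rw [Finset.powerset_univ, Finset.sum_filter]
    refine Finset.sum_congr rfl fun J _ => ?_
    split_ifs with h
    · simp only [hk, Finset.sum_const, nsmul_eq_mul]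
    · rw [Finset.not_nonempty_iff_eq_empty.1 h]
      simp [zero_pow (show M ≠ 0 by omega)]
  rw [h0, Finset.sum_powerset_apply_card
    (fun j => ((j : ℝ) * κ) ^ M), Finset.mul_sum, Finset.card_univ,
    Fintype.card_fin]
  refine Finset.sum_congr rfl fun j _ => ?_
  rw [nsmul_eq_mul, mul_pow]
  ring

theorem wt_eq (r κ : ℕ) (k : Fin r → ℕ) (hk : ∀ i, k i = κ) (M : ℕ) (hr : 1 ≤ r) (hM : r ≤ M) :
    wt k M = (κ : ℝ) ^ M * ((M - 1).choose (r - 1) : ℝ) := by
  unfold wt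
  have h : ∀ m ∈ (Finset.piAntidiag Finset.univ M).filter (fun m : Fin r → ℕ => ∀ i, 1 ≤ m i),
      ∏ i, (k i : ℝ) ^ m i = (κ : ℝ) ^ M := by
    intro m hm
    have h2 := (Finset.mem_piAntidiag.1 (Finset.mem_filter.1 hm).1).1
    simp only [hk]
    rw [Finset.prod_pow_eq_pow_sum, h2]
  rw [Finset.sum_congr rfl h, Finset.sum_const, card_pos r M hr hM, nsmul_eq_mul]
  ring

theorem tj_nonneg (r M : ℕ) : 0 ≤ tj r M :=
  Finset.sum_nonneg fun j _ => by positivity

theorem choose_step (n r : ℕ) (hr : 1 ≤ r) (hn : 1 ≤ n) :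
    ((n + r - 2).choose (r - 1) : ℝ) * ((n : ℝ) + r - 1) = ((n + r - 1).choose (r - 1) : ℝ) * n := by
  obtain ⟨r, rfl⟩ := Nat.exists_eq_add_of_le' hr
  obtain ⟨n, rfl⟩ := Nat.exists_eq_add_of_le' hn
  have e1 : n + 1 + (r + 1) - 2 = n + r := by omega
  have e2 : n + 1 + (r + 1) - 1 = n + r + 1 := by omega
  rw [e1, e2, Nat.add_sub_cancel]
  have h := Nat.choose_mul_succ_eq (n + r) r
  have h' : n + r + 1 - r = n + 1 := by omega
  rw [h'] at h
  have h2 : ((n + r).choose r : ℝ) * ((n : ℝ) + r + 1) = ((n + r + 1).choose r : ℝ) * ((n : ℝ) + 1) := by exact_mod_cast h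
  push_cast
  linarith [h2]

theorem t (hSR : Pool.Agent.Helper70.EQ.G_SR) : Pool.Agent.Helper70.EH.G_CK := by
  intro n r k c hn hr hk1 hkk hc hnum
  have hr' : (1 : ℝ) ≤ r := by exact_mod_cast hr
  have hn' : (3 : ℝ) ≤ n := by exact_mod_cast hn
  obtain ⟨κ, hκ⟩ : ∃ κ, κ = k ⟨0, hr⟩ := ⟨_, rfl⟩
  have hk : ∀ i, k i = κ := fun i => by rw [hκ]; exact hkk i _
  have hκ1 : 1 ≤ κ := by rw [hκ]; exact hk1 _
  have hκr : (1 : ℝ) ≤ κ := by exact_mod_cast hκ1
  have hS : (r.factorial : ℝ) * (Nat.stirlingSecond (n + r) r : ℝ) = sj r (n + r) := ((hSR r (n + r)).1).symm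
  have hC : (n + r - 1).choose n = (n + r - 1).choose (r - 1) := by
    have : n + r - 1 = n + (r - 1) := by omega
    rw [this, Nat.choose_symm_add]
  have e1 : n + r - 1 - 1 = n + r - 2 := by omega
  have hst := choose_step n r hr (by omega)
  rw [← hC] at hst
  have hC0 : (0 : ℝ) < ((n + r - 1).choose n : ℝ) := by
    exact_mod_cast Nat.choose_pos (show n ≤ n + r - 1 by omega)
  unfold NumH
  rw [hS, ak_eq r κ k hk (n + r) (by omega), ak_eq r κ k hk (n + r - 1) (by omega),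
    bk_eq r κ k hk (n + r - 1) (by omega), bk_eq r κ k hk (n + r - 2) (by omega),
    wt_eq r κ k hk (n + r) hr (by omega), wt_eq r κ k hk (n + r - 1) hr (by omega), e1, ← hC]
  unfold Pool.Agent.Helper70.EQ.Num at hnum
  have ht := tj_nonneg r (n + r - 2)
  have hp1 : (κ : ℝ) ^ (n + r - 1) = (κ : ℝ) ^ (n + r - 2) * κ := by
    rw [← pow_succ]; congr 1; omega
  have hp2 : (κ : ℝ) ^ (n + r) = (κ : ℝ) ^ (n + r - 2) * κ * κ := by
    rw [← pow_succ, ← pow_succ]; congr 1; omega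
  have hpos : (0 : ℝ) < (κ : ℝ) ^ (n + r - 2) := by positivity
  rw [hp1, hp2]
  generalize (κ : ℝ) ^ (n + r - 2) = P at *
  generalize ((n + r - 1).choose n : ℝ) = C at *
  generalize ((n + r - 2).choose (r - 1) : ℝ) = C' at *
  generalize sj r (n + r) = s at *
  generalize sj r (n + r - 1) = s1 at *
  generalize tj r (n + r - 1) = t1 at *
  generalize tj r (n + r - 2) = t2 at *
  have hN1 : (0 : ℝ) < (n : ℝ) + r - 1 := by linarith
  refine ⟨le_of_eq (by ring), ?_⟩
  set X : ℝ := ((n : ℝ) + r - 1) * (((n : ℝ) + r) * s1 - t1) - 2 * n * s with hX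
  have hX0 : 0 < 4 * c * X := lt_of_le_of_lt (by positivity) hnum
  have hNP : 0 < ((n : ℝ) + r) * C * P := by positivity
  have hmain : ((n : ℝ) + r) * C * P * (((n : ℝ) + r - 1) ^ 4 * t2) <
      ((n : ℝ) + r) * C * P * (4 * c * X) * κ := by
    have h1 := mul_lt_mul_of_pos_left hnum hNP
    have h2 : ((n : ℝ) + r) * C * P * (4 * c * X) * 1 ≤ ((n : ℝ) + r) * C * P * (4 * c * X) * κ :=
      mul_le_mul_of_nonneg_left hκr (by positivity)
    linarith
  refine lt_of_mul_lt_mul_left (a := (n : ℝ) + r - 1) ?_ hN1.le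
  have e2 : ((n : ℝ) + r - 1) * (((n : ℝ) + r) * ((n : ℝ) + r - 1) ^ 3 * C * (P * t2)) =
      ((n : ℝ) + r) * C * P * (((n : ℝ) + r - 1) ^ 4 * t2) := by ring
  have e3 : ((n : ℝ) + r - 1) * (4 * c * (2 * c * (s * (P * κ * κ * C) - C * (P * κ * κ * s)) +
        ((n : ℝ) + r) * C * (((n : ℝ) + r) * (P * κ * s1) - P * κ * t1) -
        2 * ((n : ℝ) + r) * s * (P * κ * C'))) =
      ((n : ℝ) + r) * C * P * (4 * c * X) * κ := by
    have : ((n : ℝ) + r - 1) * (4 * c * (2 * c * (s * (P * κ * κ * C) - C * (P * κ * κ * s)) +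
        ((n : ℝ) + r) * C * (((n : ℝ) + r) * (P * κ * s1) - P * κ * t1) -
        2 * ((n : ℝ) + r) * s * (P * κ * C'))) =
        4 * c * (((n : ℝ) + r) * C * P * κ * (((n : ℝ) + r - 1) * (((n : ℝ) + r) * s1 - t1)) -
          2 * ((n : ℝ) + r) * s * P * κ * (C' * ((n : ℝ) + r - 1))) := by ring
    rw [this, hst, hX]
    ring
  linarith [hmain, e2, e3]

end Pool.Agent.Helper96.EH.CK
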